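import Pool.Agent.Q303.Sph.Param
import Pool.Agent.Q303.Sph.Thin

set_option autoImplicit false

/-!
# Precolourings of the two-sphere

For `Γ = O(3)` and `Γ = SO(3)`, and for every set `W ⊂ S²` with trivial pointwise stabilizer, every
colouring of `S² \ W` with `D_Γ(S²) = 2` colours extends to a `Γ`-distinguishing colouring if and
only if `2 ^ |W| > 2 ^ ℵ₀`.  So there is an uncountable `W` for which the extension property fails
if and only if `2 ^ ℵ₁ = 2 ^ ℵ₀`.
-/

open Matrix Cardinal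

namespace Pool.Agent.Results.MP_0be93d_co.ExtensionCriterion

/-- The unit sphere `S²` of `ℝ³`. -/
def Sphere : Set (Fin 3 → ℝ) := {x | x 0 ^ 2 + x 1 ^ 2 + x 2 ^ 2 = 1}

/-- The group `O(3)`. -/
def O3 : Set (Matrix (Fin 3) (Fin 3) ℝ) := {M | Mᵀ * M = 1}

/-- The group `SO(3)`. -/
def SO3 : Set (Matrix (Fin 3) (Fin 3) ℝ) := {M | Mᵀ * M = 1 ∧ M.det = 1}

/-- The colouring `c` of the sphere is `Γ`-distinguishing: the identity is the only element of `Γ`
which preserves it. -/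
def Distinguishing (Γ : Set (Matrix (Fin 3) (Fin 3) ℝ)) {k : ℕ} (c : Sphere → Fin k) : Prop :=
  ∀ M ∈ Γ, (∀ x y : Sphere, M *ᵥ x.1 = y.1 → c y = c x) → M = 1

/-- The distinguishing number `D_Γ(S²)`: the least `k` for which a `Γ`-distinguishing `k`-colouring
exists. -/
noncomputable def distNum (Γ : Set (Matrix (Fin 3) (Fin 3) ℝ)) : ℕ :=
  sInf {k | ∃ c : Sphere → Fin k, Distinguishing Γ c}

/-- No element of `Γ` besides the identity fixes every point of `W`. -/
def TrivialStabilizer (Γ : Set (Matrix (Fin 3) (Fin 3) ℝ)) (W : Set Sphere) : Prop :=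
  ∀ M ∈ Γ, (∀ w ∈ W, M *ᵥ w.1 = w.1) → M = 1

/-- The precolouring extension property `P(W, Γ)`: every colouring of the complement of `W` with
`D_Γ(S²)` colours extends to a `Γ`-distinguishing colouring. -/
def ExtensionProperty (Γ : Set (Matrix (Fin 3) (Fin 3) ℝ)) (W : Set Sphere) : Prop :=
  ∀ c : {x : Sphere // x ∉ W} → Fin (distNum Γ), ∃ c' : Sphere → Fin (distNum Γ),
    (∀ x, c' x.1 = c x) ∧ Distinguishing Γ c'

open Pool.Agent.Q303.Sph

lemma sphere_map {M : Matrix (Fin 3) (Fin 3) ℝ} (hM : Mᵀ * M = 1) {x : Fin 3 → ℝ}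
    (hx : x ∈ Sphere) : M *ᵥ x ∈ Sphere := by
  have h : ∀ v : Fin 3 → ℝ, v 0 ^ 2 + v 1 ^ 2 + v 2 ^ 2 = v ⬝ᵥ v := by
    intro v
    simp only [dotProduct, Fin.sum_univ_three]
    ring
  show (M *ᵥ x) 0 ^ 2 + (M *ᵥ x) 1 ^ 2 + (M *ᵥ x) 2 ^ 2 = 1
  rw [h, dotProduct_mulVec, vecMul_mulVec, hM, vecMul_one, ← h]
  exact hx

/-- the stereographic parametrization of the equator -/
noncomputable def circ (t : ℝ) : Sphere :=
  ⟨![2 * t / (1 + t ^ 2), (1 - t ^ 2) / (1 + t ^ 2), 0], by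
    have : (1 : ℝ) + t ^ 2 ≠ 0 := by positivity
    simp only [Sphere, Set.mem_ofPred_eq]
    simp
    field_simp
    ring⟩

lemma circ_inj : Function.Injective circ := by
  intro s t h
  have h0 := congrFun (congrArg Subtype.val h) 0
  have h1 := congrFun (congrArg Subtype.val h) 1
  simp only [circ] at h0 h1
  simp at h0 h1
  have hs : (1 : ℝ) + s ^ 2 ≠ 0 := by positivity
  have ht : (1 : ℝ) + t ^ 2 ≠ 0 := by positivity
  rw [div_eq_div_iff hs ht] at h0 h1
  have h2 : s ^ 2 = t ^ 2 := by nlinarith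
  rw [h2] at h0
  have h3 : 2 * s = 2 * t := mul_right_cancel₀ ht h0
  linarith

lemma continuum_le : 𝔠 ≤ #Sphere := by
  rw [← mk_real]
  exact mk_le_of_injective circ_inj

/-- the coordinate vectors -/
def ev (i : Fin 3) : Sphere := ⟨Pi.single i 1, by
  fin_cases i <;> simp [Sphere]⟩

lemma eq_one_of_fix {M : Matrix (Fin 3) (Fin 3) ℝ} (h : ∀ i, M *ᵥ (ev i).1 = (ev i).1) : M = 1 := by
  ext i j
  have := congrFun (h j) i
  simp only [ev] at this
  rw [mulVec_single_one] at this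
  simpa [Matrix.one_apply, Pi.single_apply] using this

/-- a half turn -/
def half : Matrix (Fin 3) (Fin 3) ℝ := Matrix.diagonal ![-1, -1, 1]

lemma half_mem : half ∈ SO3 := by
  constructor
  · unfold half
    rw [diagonal_transpose, diagonal_mul_diagonal]
    ext i j
    fin_cases i <;> fin_cases j <;> simp
  · unfold half
    rw [det_diagonal, Fin.prod_univ_three]
    simp

lemma half_ne : half ≠ 1 := by
  intro h
  have := congrFun (congrFun h 0) 0
  simp [half] at this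
  norm_num at this

lemma mk_image (W : Set Sphere) : #(Subtype.val '' W : Set (Fin 3 → ℝ)) = #W :=
  mk_image_eq Subtype.val_injective

lemma extends_of_large {Γ : Set (Matrix (Fin 3) (Fin 3) ℝ)} (hΓ : Γ ⊆ O3) (W : Set Sphere)
    (htriv : TrivialStabilizer Γ W) (hW : 𝔠 < 2 ^ #W) (k : ℕ) (hk : 2 ≤ k)
    (c : {x : Sphere // x ∉ W} → Fin k) :
    ∃ c' : Sphere → Fin k, (∀ x, c' x.1 = c x) ∧ Distinguishing Γ c' := by
  classical
  let cc : (Fin 3 → ℝ) → Fin k := fun x =>
    if h : ∃ y : {x : Sphere // x ∉ W}, y.1.1 = x then c h.choose else ⟨0, by omega⟩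
  have hcc : ∀ y : {x : Sphere // x ∉ W}, cc y.1.1 = c y := by
    intro y
    have h : ∃ z : {x : Sphere // x ∉ W}, z.1.1 = y.1.1 := ⟨y, rfl⟩
    simp only [cc]
    rw [dif_pos h]
    congr 1
    exact Subtype.ext (Subtype.ext h.choose_spec)
  obtain ⟨c', h1, h2⟩ := ext_of_large Γ (fun M hM => hΓ hM) (Subtype.val '' W)
    (by rintro w ⟨x, _, rfl⟩; exact x.2) (by rwa [mk_image])
    (fun M hM h => htriv M hM (fun w hw => h w.1 ⟨w, hw, rfl⟩)) k hk cc
  refine ⟨fun x => c' x.1, fun x => ?_, fun M hM h => ?_⟩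
  · show c' x.1.1 = c x
    rw [h1, hcc]
    rintro ⟨y, hy, hyx⟩
    exact x.2 (by rwa [← Subtype.ext hyx])
  · apply h2 M hM
    rintro x ⟨w, _, rfl⟩
    exact h w ⟨M *ᵥ w.1, sphere_map (hΓ hM) w.2⟩ rfl

lemma not_extends {Γ : Set (Matrix (Fin 3) (Fin 3) ℝ)} (hΓ : SO3 ⊆ Γ) (W : Set Sphere)
    (htriv : TrivialStabilizer Γ W) (hW : (2 : Cardinal) ^ #W ≤ 𝔠) (k : ℕ) (hk : 2 ≤ k) :
    ∃ c : {x : Sphere // x ∉ W} → Fin k,
      ¬ ∃ c' : Sphere → Fin k, (∀ x, c' x.1 = c x) ∧ Distinguishing Γ c' := by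
  classical
  have hne : W.Nonempty := by
    by_contra h
    rw [Set.not_nonempty_iff_eq_empty] at h
    exact half_ne (htriv half (hΓ half_mem) (fun w hw => by simp [h] at hw))
  obtain ⟨c, hc⟩ := not_ext (Subtype.val '' W) (by
    rintro w ⟨x, _, rfl⟩ h0
    have := x.2
    rw [h0] at this
    simp [Sphere] at this) (hne.image _) (by rwa [mk_image]) k (by omega)
  refine ⟨fun x => c x.1.1, ?_⟩
  rintro ⟨c', h1, h2⟩
  obtain ⟨M, hM1, hM2, hM3, hM4⟩ := hc (fun x => if h : x ∈ Sphere then c' ⟨x, h⟩ else c x) (by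
    intro x hx
    by_cases h : x ∈ Sphere
    · simp only [dif_pos h]
      exact h1 ⟨⟨x, h⟩, fun hw => hx ⟨_, hw, rfl⟩⟩
    · simp only [dif_neg h])
  apply hM3
  apply h2 M (hΓ ⟨hM1, hM2⟩)
  intro x y hxy
  have h3 := hM4 x.1
  rw [dif_pos x.2, dif_pos (by rw [hxy]; exact y.2)] at h3
  have : (⟨M *ᵥ x.1, by rw [hxy]; exact y.2⟩ : Sphere) = y := Subtype.ext hxy
  rw [this] at h3
  exact h3

lemma distNum_eq {Γ : Set (Matrix (Fin 3) (Fin 3) ℝ)} (hΓ : Γ ⊆ O3) (hΓ' : SO3 ⊆ Γ) :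
    distNum Γ = 2 := by
  have hex : ∃ c : Sphere → Fin 2, Distinguishing Γ c := by
    obtain ⟨c', _, h⟩ := extends_of_large hΓ Set.univ
      (fun M hM h => eq_one_of_fix (fun i => h (ev i) trivial))
      (by
        rw [mk_univ]
        exact lt_of_le_of_lt continuum_le (cantor _)) 2 le_rfl (fun x => absurd trivial x.2)
    exact ⟨c', h⟩
  refine le_antisymm (Nat.sInf_le hex) (le_csInf ⟨2, hex⟩ ?_)
  rintro k ⟨c, hc⟩
  by_contra hk
  have : k = 0 ∨ k = 1 := by omega
  rcases this with rfl | rfl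
  · exact (c (ev 0)).elim0
  · exact half_ne (hc half (hΓ' half_mem) (fun x y _ => Subsingleton.elim _ _))

/-- Let `Γ` be `O(3)` or `SO(3)`.

(1) `D_Γ(S²) = 2`.

(2) For every `W ⊂ S²` with trivial pointwise stabilizer in `Γ`, the extension property `P(W, Γ)`
holds if and only if `2 ^ |W| > 2 ^ ℵ₀`.

(3) There is an uncountable set `W ⊂ S²` with trivial pointwise stabilizer in `Γ` for which
`P(W, Γ)` fails if and only if `2 ^ ℵ₁ = 2 ^ ℵ₀`. -/
theorem result (Γ : Set (Matrix (Fin 3) (Fin 3) ℝ)) (hΓ : Γ = O3 ∨ Γ = SO3) :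
    distNum Γ = 2 ∧
    (∀ W : Set Sphere, TrivialStabilizer Γ W →
      (ExtensionProperty Γ W ↔ (2 : Cardinal) ^ ℵ₀ < 2 ^ #W)) ∧
    ((∃ W : Set Sphere, ¬ W.Countable ∧ TrivialStabilizer Γ W ∧ ¬ ExtensionProperty Γ W) ↔
      (2 : Cardinal.{0}) ^ (aleph 1) = 2 ^ ℵ₀) := by
  have h1 : Γ ⊆ O3 := by
    rcases hΓ with rfl | rfl
    · exact Set.Subset.refl _
    · exact fun M hM => hM.1
  have h2 : SO3 ⊆ Γ := by
    rcases hΓ with rfl | rfl
    · exact fun M hM => hM.1
    · exact Set.Subset.refl _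
  have hd := distNum_eq h1 h2
  have crit : ∀ W : Set Sphere, TrivialStabilizer Γ W →
      (ExtensionProperty Γ W ↔ (2 : Cardinal) ^ ℵ₀ < 2 ^ #W) := by
    intro W hW
    rw [two_power_aleph0]
    constructor
    · intro h
      by_contra hlt
      rw [not_lt] at hlt
      obtain ⟨c, hc⟩ := not_extends h2 W hW hlt (distNum Γ) (by omega)
      exact hc (h c)
    · intro h c
      exact extends_of_large h1 W hW h (distNum Γ) (by omega) c
  refine ⟨hd, crit, ?_, ?_⟩
  · rintro ⟨W, hW, htriv, hE⟩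
    rw [crit W htriv, not_lt] at hE
    have h3 : aleph 1 ≤ #W := by
      have h4 : ℵ₀ < #W := by
        by_contra h
        rw [not_lt] at h
        exact hW (Set.countable_coe_iff.1 (mk_le_aleph0_iff.1 h))
      rw [← succ_aleph0]
      exact Order.succ_le_of_lt h4
    exact le_antisymm ((power_le_power_left two_ne_zero h3).trans hE)
      (power_le_power_left two_ne_zero (aleph0_le_aleph 1))
  · intro h
    obtain ⟨S, hS⟩ := le_mk_iff_exists_set.1 (aleph_one_le_continuum.trans continuum_le)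
    let W : Set Sphere := S ∪ Set.range ev
    have htriv : TrivialStabilizer Γ W := fun M _ hM =>
      eq_one_of_fix (fun i => hM (ev i) (Or.inr ⟨i, rfl⟩))
    have hcard : #W ≤ aleph 1 := by
      refine (mk_union_le _ _).trans ?_
      rw [hS]
      refine add_le_of_le (aleph0_le_aleph 1) le_rfl ?_
      refine mk_range_le.trans ?_
      rw [mk_fin]
      exact (natCast_lt_aleph0.le).trans (aleph0_le_aleph 1)
    refine ⟨W, ?_, htriv, ?_⟩
    · intro hc
      have h5 : S.Countable := hc.mono Set.subset_union_left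
      have h6 : #S ≤ ℵ₀ := mk_le_aleph0_iff.2 (Set.countable_coe_iff.2 h5)
      rw [hS] at h6
      exact absurd h6 (not_le.2 aleph0_lt_aleph_one)
    · rw [crit W htriv, not_lt]
      exact (power_le_power_left two_ne_zero hcard).trans h.le

end Pool.Agent.Results.MP_0be93d_co.ExtensionCriterion
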